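import Pool.Agent.Y76.RDX.L

/-! A domain extension with `S ^ 2 = S ^ 3`. -/

set_option autoImplicit false

namespace Pool.Agent.Y76.RDX

open Matrix H354P

section
variable {R : Type} [Ring R]

theorem ma_coeff (u v : MonoidAlgebra R (FreeMonoid Bool)) (i : Bool) (m : FreeMonoid Bool) :
    (u * MonoidAlgebra.single (FreeMonoid.of i) 1 +
      v * MonoidAlgebra.single (FreeMonoid.of (!i)) 1).coeff (m * FreeMonoid.of i) =
    u.coeff m := by
  rw [MonoidAlgebra.coeff_add, Finsupp.add_apply,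
    MonoidAlgebra.coeff_mul_single_eq_coeff_mul (m₂ := m) (fun m' _ => mul_left_inj _),
    MonoidAlgebra.coeff_mul_single_of_forall_mul_ne, mul_one, add_zero]
  intro d hd
  have h := congrArg FreeMonoid.toList hd
  simp only [FreeMonoid.toList_mul, FreeMonoid.toList_of] at h
  have h2 := (List.append_inj' h rfl).2
  simp at h2

theorem ma_aux (u v : MonoidAlgebra R (FreeMonoid Bool))
    (h : u * MonoidAlgebra.single (FreeMonoid.of true) 1 +
      v * MonoidAlgebra.single (FreeMonoid.of false) 1 = 0) : u = 0 ∧ v = 0 := by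
  constructor
  · ext m
    have h1 := ma_coeff u v true m
    rw [← h1]
    simp only [Bool.not_true]
    rw [h]
    simp
  · ext m
    have h1 := ma_coeff v u false m
    rw [← h1]
    simp only [Bool.not_false]
    rw [add_comm, h]
    simp

theorem iota_ne [Nontrivial R] (i : Bool) :
    (MonoidAlgebra.single (FreeMonoid.of i) 1 : MonoidAlgebra R (FreeMonoid Bool)) ≠ 0 := by
  intro h
  have h1 := ma_aux (R := R) (if i = true then 1 else 0) (if i = false then 1 else 0) (by
    cases i <;> simp [h])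
  cases i <;> simp at h1

/-- the matrix -/
noncomputable def AR (R : Type) [Ring R] :
    Matrix (Fin 3) (Fin 2) (MonoidAlgebra R (FreeMonoid Bool)) :=
  !![MonoidAlgebra.single (FreeMonoid.of true) 1, 0;
     MonoidAlgebra.single (FreeMonoid.of false) 1, 0; 0, 1]

end

theorem base (k : Type) [Field k] (R : Type) [Ring R] [Algebra k R] [IsDomain R] :
    ∃ (S : Type) (_ : Ring S) (_ : Algebra k S) (_ : IsDomain S) (φ : R →ₐ[k] S)
      (P : Matrix (Fin 3) (Fin 2) S) (Q : Matrix (Fin 2) (Fin 3) S),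
      Function.Injective φ ∧ P * Q = 1 ∧ Q * P = 1 := by
  have hE4 := H354P.taskE4_397 k
  have hT := Pool.Agent.H975.NORE.taskT1 k (H920NORE.taskT0 k)
  obtain ⟨S, _, _, _, φ, s, hφ, hs, -, -, hd1, hd2⟩ :=
    hE4 (MonoidAlgebra R (FreeMonoid Bool)) 3 2 (AR R) 0 0
    (by simp) (by simp) (by
      intro ρ h
      have h0 := congrFun h 0
      have h1 := congrFun h 1
      simp [AR, Matrix.vecMul, dotProduct, Fin.sum_univ_three] at h0 h1
      obtain ⟨h2, h3⟩ := ma_aux _ _ h0
      funext i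
      fin_cases i <;> simp [h1, h2, h3]) (by
      intro y h
      have h0 := congrFun h 0
      have h2 := congrFun h 2
      simp [AR, Matrix.mulVec, dotProduct, Fin.sum_univ_two] at h0 h2
      have h3 : y 0 = 0 := h0
      funext i
      fin_cases i <;> simp [h2, h3]) (by
      rintro ⟨c, d, h⟩
      have h00 := congrFun (congrFun h 0) 0
      have h01 := congrFun (congrFun h 0) 1
      have h21 := congrFun (congrFun h 2) 1
      simp [AR, vecMulVec_apply] at h00 h01 h21
      rcases h01 with h | h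
      · rw [h, zero_mul] at h00
        exact iota_ne true h00
      · rw [h, mul_zero] at h21
        exact one_ne_zero h21)
  obtain ⟨S', _, _, _, ψ, a1, b1, a2, b2, hψ, h1, h2, h3, h4⟩ := hT S 2 3 _ _ hd1 hd2
  set M : Matrix (Fin 3) (Fin 2) S := (AR R).map φ with hM
  set M' : Matrix (Fin 3) (Fin 2) S' := M.map ψ with hM'
  set s' : Matrix (Fin 2) (Fin 3) S' := s.map ψ with hs'
  have e1 : (s * M).map ψ = s' * M' := Matrix.map_mul (f := (ψ : S →+* S'))
  have e2 : (M * s).map ψ = M' * s' := Matrix.map_mul (f := (ψ : S →+* S'))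
  have e3 : (s * M * s).map ψ = s' * M' * s' := by
    rw [show (s * M * s).map ψ = (s * M).map ψ * s.map ψ from
      Matrix.map_mul (f := (ψ : S →+* S')), e1]
  have hs2 : s' * M' * s' = s' := by rw [← e3, hs]
  have e4 : (1 - (0 : Matrix (Fin 2) (Fin 2) (MonoidAlgebra R (FreeMonoid Bool))).map φ - s * M).map ψ =
      1 - s' * M' := by
    rw [Matrix.map_zero _ (map_zero φ), sub_zero, Matrix.map_sub _ (map_sub ψ),
      Matrix.map_one _ (map_zero ψ) (map_one ψ), e1]
  have e5 : (1 - (0 : Matrix (Fin 3) (Fin 3) (MonoidAlgebra R (FreeMonoid Bool))).map φ - M * s).map ψ =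
      1 - M' * s' := by
    rw [Matrix.map_zero _ (map_zero φ), sub_zero, Matrix.map_sub _ (map_sub ψ),
      Matrix.map_one _ (map_zero ψ) (map_one ψ), e2]
  rw [e4] at h1
  rw [e5] at h3
  have q1 : s' * M' * a1 = 0 := by
    have : (1 - s' * M') * a1 = a1 := by rw [← h1, Matrix.mul_assoc, h2, Matrix.mul_one]
    rw [Matrix.sub_mul, Matrix.one_mul, sub_eq_self] at this
    exact this
  have q2 : b1 * s' = 0 := by
    have : b1 * (1 - s' * M') = b1 := by rw [← h1, ← Matrix.mul_assoc, h2, Matrix.one_mul]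
    rw [Matrix.mul_sub, Matrix.mul_one, sub_eq_self] at this
    rw [← hs2, ← Matrix.mul_assoc, this, Matrix.zero_mul]
  have q3 : s' * a2 = 0 := by
    have : (1 - M' * s') * a2 = a2 := by rw [← h3, Matrix.mul_assoc, h4, Matrix.mul_one]
    rw [Matrix.sub_mul, Matrix.one_mul, sub_eq_self] at this
    rw [← hs2, Matrix.mul_assoc, Matrix.mul_assoc, ← Matrix.mul_assoc M', this, Matrix.mul_zero]
  have q4 : b2 * (M' * s') = 0 := by
    have : b2 * (1 - M' * s') = b2 := by rw [← h3, ← Matrix.mul_assoc, h4, Matrix.one_mul]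
    rw [Matrix.mul_sub, Matrix.mul_one, sub_eq_self] at this
    exact this
  refine ⟨S', inferInstance, inferInstance, inferInstance,
    ψ.comp (φ.comp MonoidAlgebra.singleOneAlgHom), M' * s' * M' + a2 * b1, s' + a1 * b2,
    ?_, ?_, ?_⟩
  · refine hψ.comp (hφ.comp ?_)
    intro x y hxy
    exact MonoidAlgebra.single_right_injective hxy
  · have t1 : M' * s' * M' * s' = M' * s' := by
      rw [Matrix.mul_assoc, Matrix.mul_assoc, ← Matrix.mul_assoc s', hs2]
    have t2 : M' * s' * M' * (a1 * b2) = 0 := by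
      rw [← Matrix.mul_assoc, Matrix.mul_assoc M', Matrix.mul_assoc M', q1, Matrix.mul_zero,
        Matrix.zero_mul]
    have t3 : a2 * b1 * s' = 0 := by rw [Matrix.mul_assoc, q2, Matrix.mul_zero]
    have t4 : a2 * b1 * (a1 * b2) = 1 - M' * s' := by
      rw [← h3, Matrix.mul_assoc, ← Matrix.mul_assoc b1, h2, Matrix.one_mul]
    rw [Matrix.add_mul, Matrix.mul_add, Matrix.mul_add, t1, t2, t3, t4]
    abel
  · have t1 : s' * (M' * s' * M') = s' * M' := by
      rw [← Matrix.mul_assoc, ← Matrix.mul_assoc, hs2]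
    have t2 : s' * (a2 * b1) = 0 := by rw [← Matrix.mul_assoc, q3, Matrix.zero_mul]
    have t3 : a1 * b2 * (M' * s' * M') = 0 := by
      rw [Matrix.mul_assoc, ← Matrix.mul_assoc b2, q4, Matrix.zero_mul, Matrix.mul_zero]
    have t4 : a1 * b2 * (a2 * b1) = 1 - s' * M' := by
      rw [← h1, Matrix.mul_assoc, ← Matrix.mul_assoc b2, h4, Matrix.one_mul]
    rw [Matrix.add_mul, Matrix.mul_add, Matrix.mul_add, t1, t2, t3, t4]
    abel

/-- countable case -/
theorem base_countable (k : Type) [Field k] (hk : Countable k) (R : Type) [Ring R] [Algebra k R]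
    [IsDomain R] (hR : Countable R) :
    ∃ (S : Type) (_ : Ring S) (_ : Algebra k S) (_ : IsDomain S) (_ : Countable S) (φ : R →ₐ[k] S)
      (P : Matrix (Fin 3) (Fin 2) S) (Q : Matrix (Fin 2) (Fin 3) S),
      Function.Injective φ ∧ P * Q = 1 ∧ Q * P = 1 := by
  obtain ⟨S, _, _, _, φ, P, Q, hφ, h1, h2⟩ := base k R
  let s : Set S := Set.range φ ∪ (Set.range (fun x : Fin 3 × Fin 2 => P x.1 x.2) ∪
    Set.range (fun x : Fin 2 × Fin 3 => Q x.1 x.2))
  have hs : s.Countable := (Set.countable_range _).union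
    ((Set.countable_range _).union (Set.countable_range _))
  let P' : Matrix (Fin 3) (Fin 2) (Algebra.adjoin k s) := fun i j =>
    ⟨P i j, Algebra.subset_adjoin (Or.inr (Or.inl ⟨(i, j), rfl⟩))⟩
  let Q' : Matrix (Fin 2) (Fin 3) (Algebra.adjoin k s) := fun i j =>
    ⟨Q i j, Algebra.subset_adjoin (Or.inr (Or.inr ⟨(i, j), rfl⟩))⟩
  have hP : P'.map (Algebra.adjoin k s).val = P := rfl
  have hQ : Q'.map (Algebra.adjoin k s).val = Q := rfl
  have hinj : Function.Injective (Algebra.adjoin k s).val := Subtype.val_injective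
  have hB : Countable (Algebra.adjoin k s) := by
    rw [← Cardinal.mk_le_aleph0_iff]
    refine (Algebra.cardinalMk_adjoin_le k s).trans ?_
    refine max_le (max_le ?_ ?_) le_rfl
    · exact Cardinal.mk_le_aleph0_iff.2 hk
    · exact Cardinal.mk_le_aleph0_iff.2 hs.to_subtype
  refine ⟨Algebra.adjoin k s, inferInstance, inferInstance, inferInstance, hB,
    φ.codRestrict _ (fun x => Algebra.subset_adjoin (Or.inl ⟨x, rfl⟩)), P', Q', ?_, ?_, ?_⟩
  · intro x y hxy
    exact hφ (congrArg Subtype.val hxy)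
  · apply Matrix.map_injective hinj
    show (P' * Q').map _ = (1 : Matrix (Fin 3) (Fin 3) _).map _
    rw [Matrix.map_mul, hP, hQ, h1, Matrix.map_one _ (map_zero _) (map_one _)]
  · apply Matrix.map_injective hinj
    show (Q' * P').map _ = (1 : Matrix (Fin 2) (Fin 2) _).map _
    rw [Matrix.map_mul, hP, hQ, h2, Matrix.map_one _ (map_zero _) (map_one _)]

/-- the countable case of the theorem -/
theorem countable_case (k : Type) [Field k] (hk : Countable k) (R : Type) [Ring R] [IsDomain R]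
    (hR : Countable R) (i : k →+* R) (hi : ∀ c x, i c * x = x * i c) :
    ∃ (S : Type) (_ : Ring S) (_ : IsDomain S) (φ : R →+* S)
      (P : Matrix (Fin 3) (Fin 2) S) (Q : Matrix (Fin 2) (Fin 3) S), Function.Injective φ ∧
      (∀ (c : k) (y : S), φ (i c) * y = y * φ (i c)) ∧ P * Q = 1 ∧ Q * P = 1 ∧
      ∀ (m n : ℕ) (A : Matrix (Fin m) (Fin n) S), CertL (m + 3) A := by
  letI : Algebra k R := i.toAlgebra' hi
  obtain ⟨S0, _, _, _, hS0, φ0, P, Q, hφ0, h1, h2⟩ := base_countable k hk R hR
  obtain ⟨S, _, _, φ, hφ, hc, hA⟩ := chain k hk S0 hS0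
  refine ⟨S, inferInstance, inferInstance, φ.comp φ0.toRingHom, P.map φ, Q.map φ,
    hφ.comp hφ0, ?_, ?_, ?_, hA⟩
  · intro c y
    have h3 : φ0.toRingHom (i c) = algebraMap k S0 c := φ0.commutes c
    rw [RingHom.comp_apply, h3]
    exact hc c y
  · rw [← Matrix.map_mul, h1, Matrix.map_one _ (map_zero _) (map_one _)]
  · rw [← Matrix.map_mul, h2, Matrix.map_one _ (map_zero _) (map_one _)]

end Pool.Agent.Y76.RDX
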