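import Pool.Agent.Y76.RDX.Ult

/-! Arbitrary domains; RD rings; the Ore condition. -/

set_option autoImplicit false

namespace Pool.Agent.Y76.RDX

open Matrix MulOpposite nonZeroDivisors

universe u

/-! ### central localization -/

theorem center_case (R : Type u) [Ring R] [IsDomain R] :
    ∃ (k : Type u) (_ : Field k) (T : Type u) (_ : Ring T) (_ : IsDomain T) (i : k →+* T)
      (j : R →+* T), (∀ c x, i c * x = x * i c) ∧ Function.Injective j ∧
      ∀ c ∈ Subring.center R, j c ∈ Set.range i := by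
  let Z := Subring.center R
  letI alg : Algebra Z R := (Subring.center R).subtype.toAlgebra' (fun c x =>
    (Subring.mem_center_iff.1 c.2 x).symm)
  have halg : ∀ (c : Z) (x : R), c • x = (c : R) * x := fun c x => Algebra.smul_def c x
  let S : Submonoid Z := nonZeroDivisors Z
  let T := LocalizedModule S R
  letI : Algebra (FractionRing Z) T :=
    LocalizedModule.algebraOfIsLocalization (S := S) (T := FractionRing Z) (A := R)
  have hmk : ∀ (a : R) (s : S), (LocalizedModule.mk a s : T) = 0 ↔ a = 0 := by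
    intro a s
    constructor
    · intro h
      rw [← LocalizedModule.zero_mk (s := 1), LocalizedModule.mk_eq] at h
      obtain ⟨w, hw⟩ := h
      rw [smul_zero, smul_zero, one_smul] at hw
      have h1 : ((w : Z) : R) * a = 0 := by rw [← halg]; exact hw
      rcases mul_eq_zero.1 h1 with h2 | h2
      · exact absurd (Subtype.ext h2) (nonZeroDivisors.ne_zero w.2)
      · exact h2
    · intro h
      rw [h, LocalizedModule.zero_mk]
  have hT : IsDomain T := by
    have : Nontrivial T := by
      refine ⟨0, LocalizedModule.mk 1 1, fun h => ?_⟩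
      exact one_ne_zero ((hmk 1 1).1 h.symm)
    have : NoZeroDivisors T := by
      refine ⟨fun {x y} hxy => ?_⟩
      induction x using LocalizedModule.induction_on with | _ a s => _
      induction y using LocalizedModule.induction_on with | _ b t => _
      rw [LocalizedModule.mk_mul_mk, hmk] at hxy
      rcases mul_eq_zero.1 hxy with h | h
      · left; exact (hmk a s).2 h
      · right; exact (hmk b t).2 h
    exact NoZeroDivisors.to_isDomain T
  refine ⟨FractionRing Z, inferInstance, T, inferInstance, hT, algebraMap _ _,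
    LocalizedModule.numeratorRingHom, fun c x => Algebra.commutes c x, ?_, ?_⟩
  · rw [injective_iff_map_eq_zero]
    intro x hx
    exact (hmk x 1).1 hx
  · intro c hc
    refine ⟨IsLocalization.mk' (FractionRing Z) (⟨c, hc⟩ : Z) (1 : S), ?_⟩
    exact LocalizedModule.algebraMap_mk' (T := FractionRing Z) (A := R) (⟨c, hc⟩ : Z) (1 : S)

/-- every domain embeds in a domain with certificates -/
theorem main (R : Type u) [Ring R] [IsDomain R] :
    ∃ (S : Type u) (_ : Ring S) (_ : IsDomain S) (φ : R →+* S)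
      (P : Matrix (Fin 3) (Fin 2) S) (Q : Matrix (Fin 2) (Fin 3) S), Function.Injective φ ∧
      (∀ c ∈ Subring.center R, φ c ∈ Subring.center S) ∧ P * Q = 1 ∧ Q * P = 1 ∧
      ∀ (m n : ℕ) (A : Matrix (Fin m) (Fin n) S), CertL (m + 3) A := by
  obtain ⟨k, _, T, _, _, i, j, hi, hj, hjc⟩ := center_case R
  obtain ⟨S, _, _, φ, P, Q, hφ, hc, h1, h2, hA⟩ := field_case k T i hi
  refine ⟨S, inferInstance, inferInstance, φ.comp j, P, Q, hφ.comp hj, fun c hcR => ?_, h1, h2, hA⟩
  obtain ⟨a, ha⟩ := hjc c hcR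
  rw [Subring.mem_center_iff]
  intro y
  rw [RingHom.comp_apply, ← ha]
  exact (hc a y).symm

/-! ### rings with certificates are RD rings -/

section
variable {R : Type u} [Ring R] {M : Type u} [AddCommGroup M] [Module Rᵐᵒᵖ M]

/-- row vector times matrix -/
def act {m n : ℕ} (x : Fin m → M) (B : Matrix (Fin m) (Fin n) R) : Fin n → M :=
  fun j => ∑ i, op (B i j) • x i

theorem act_act {m n l : ℕ} (x : Fin m → M) (B : Matrix (Fin m) (Fin n) R)
    (C : Matrix (Fin n) (Fin l) R) : act (act x B) C = act x (B * C) := by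
  funext j
  simp only [act, Finset.smul_sum, Matrix.mul_apply]
  rw [Finset.sum_comm]
  refine Finset.sum_congr rfl fun i _ => ?_
  have : op (∑ j', B i j' * C j' j) = ∑ j', op (C j' j) * op (B i j') := by
    rw [Finset.op_sum]
    exact Finset.sum_congr rfl fun _ _ => op_mul _ _
  rw [this, Finset.sum_smul]
  exact Finset.sum_congr rfl fun _ _ => (mul_smul _ _ _).symm

theorem act_add {m n : ℕ} (x : Fin m → M) (B C : Matrix (Fin m) (Fin n) R) :
    act x (B + C) = act x B + act x C := by
  funext j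
  simp only [act, Pi.add_apply, Matrix.add_apply, op_add, add_smul, Finset.sum_add_distrib]

theorem act_add' {m n : ℕ} (x y : Fin m → M) (B : Matrix (Fin m) (Fin n) R) :
    act (x + y) B = act x B + act y B := by
  funext j
  simp only [act, Pi.add_apply, smul_add, Finset.sum_add_distrib]

theorem act_one {m : ℕ} (x : Fin m → M) : act x (1 : Matrix (Fin m) (Fin m) R) = x := by
  funext j
  simp only [act]
  rw [Finset.sum_eq_single j]
  · rw [Matrix.one_apply_eq, op_one, one_smul]
  · intro b _ hb
    rw [Matrix.one_apply_ne hb, op_zero, zero_smul]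
  · intro h; exact absurd (Finset.mem_univ _) h

theorem act_diag {m : ℕ} (x : Fin m → M) (r : Fin m → R) (j : Fin m) :
    act x (diagonal r) j = op (r j) • x j := by
  simp only [act]
  rw [Finset.sum_eq_single j]
  · rw [Matrix.diagonal_apply_eq]
  · intro b _ hb
    rw [Matrix.diagonal_apply_ne _ hb, op_zero, zero_smul]
  · intro h; exact absurd (Finset.mem_univ _) h

theorem act_mem {m n : ℕ} (N : Submodule Rᵐᵒᵖ M) (x : Fin m → M) (hx : ∀ i, x i ∈ N)
    (B : Matrix (Fin m) (Fin n) R) (j : Fin n) : act x B j ∈ N :=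
  Submodule.sum_mem _ fun i _ => N.smul_mem _ (hx i)

/-- in a ring with certificates every relatively divisible submodule is pure -/
theorem rd_of_cert (h : ∀ (m n : ℕ) (A : Matrix (Fin m) (Fin n) R), CertL (m + 3) A)
    (N : Submodule Rᵐᵒᵖ M)
    (hN : ∀ (r : R) (x : M), op r • x ∈ N → ∃ x' ∈ N, op r • x' = op r • x)
    (m n : ℕ) (A : Matrix (Fin m) (Fin n) R) (y : Fin n → M) (hy : ∀ j, y j ∈ N)
    (hx : ∃ x : Fin m → M, ∀ j, ∑ i, op (A i j) • x i = y j) :
    ∃ x : Fin m → M, (∀ i, x i ∈ N) ∧ ∀ j, ∑ i, op (A i j) • x i = y j := by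
  obtain ⟨x, hx⟩ := hx
  have hxA : act x A = y := funext hx
  obtain ⟨r, U, X, s, z, w, h1, h2, h3⟩ := h m n A
  have h4 : act (act x U) (diagonal r) = act y w := by
    rw [act_act, h3, ← act_act, hxA]
  have h5 : ∀ j, ∃ ν ∈ N, op (r j) • ν = act y w j := by
    intro j
    obtain ⟨ν, hν, hν2⟩ := hN (r j) (act x U j) (by
      rw [← act_diag, h4]; exact act_mem N y hy w j)
    refine ⟨ν, hν, ?_⟩
    rw [hν2, ← act_diag, h4]
  choose ν hν hν2 using h5
  have h6 : act ν (diagonal r) = act y w := by
    funext j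
    rw [act_diag, hν2]
  refine ⟨act ν X + act y s, fun i => ?_, fun j => ?_⟩
  · exact N.add_mem (act_mem N ν hν X i) (act_mem N y hy s i)
  · show act (act ν X + act y s) A j = y j
    have h7 : act (act ν X + act y s) A = y := by
      rw [act_add', act_act, h2, ← act_act, h6, act_act]
      calc act y (w * z) + act (act y s) A = act (act y w) z + act (act y s) A := by
            rw [act_act y w z]
        _ = act (act (act x U) (diagonal r)) z + act (act (act x A) s) A := by rw [h4, hxA]
        _ = act x ((U * X + A * s) * A) := by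
            rw [Matrix.add_mul, act_add, Matrix.mul_assoc U X A, h2]
            simp only [act_act, Matrix.mul_assoc]
        _ = y := by rw [h1, Matrix.one_mul, hxA]
    rw [h7]

end

/-! ### the Ore condition -/

theorem not_leftOre {S : Type u} [Ring S] [IsDomain S] {p q : ℕ} (hpq : p ≠ q)
    (P : Matrix (Fin p) (Fin q) S) (Q : Matrix (Fin q) (Fin p) S) (h1 : P * Q = 1)
    (h2 : Q * P = 1) : ¬ ∀ a b : S, a ≠ 0 → b ≠ 0 → ∃ x y : S, x * a = y * b ∧ x * a ≠ 0 := by
  intro h
  have h' : ∀ (r : S) (s : S⁰), ∃ (r' : S) (s' : S⁰), (s' : S) * r = r' * s := by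
    intro r s
    by_cases hr : r = 0
    · exact ⟨0, 1, by rw [hr, mul_zero, zero_mul]⟩
    · obtain ⟨x, y, hxy, hx⟩ := h r s hr (nonZeroDivisors.ne_zero s.2)
      have hx0 : x ≠ 0 := fun h => hx (by rw [h, zero_mul])
      exact ⟨y, ⟨x, mem_nonZeroDivisors_of_ne_zero hx0⟩, hxy⟩
  choose num den hnd using h'
  let _ : OreLocalization.OreSet S⁰ := OreLocalization.oreSetOfNoZeroDivisors num den hnd
  let D := OreLocalization S⁰ S
  let f : S →+* D := OreLocalization.numeratorRingHom
  have h1' : P.map f * Q.map f = 1 := by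
    rw [← Matrix.map_mul, h1, Matrix.map_one _ (map_zero _) (map_one _)]
  have h2' : Q.map f * P.map f = 1 := by
    rw [← Matrix.map_mul, h2, Matrix.map_one _ (map_zero _) (map_one _)]
  have e : (Fin p → D) ≃ₗ[D] (Fin q → D) :=
    (LinearEquiv.ofLinearMap (Matrix.toLinearMapRight' (P.map f)) (Matrix.toLinearMapRight' (Q.map f))
      (by rw [← Matrix.toLinearMapRight'_mul, h2', Matrix.toLinearMapRight'_one])
      (by rw [← Matrix.toLinearMapRight'_mul, h1', Matrix.toLinearMapRight'_one]))
  exact hpq (eq_of_fin_equiv D e)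

theorem not_rightOre {S : Type u} [Ring S] [IsDomain S] {p q : ℕ} (hpq : p ≠ q)
    (P : Matrix (Fin p) (Fin q) S) (Q : Matrix (Fin q) (Fin p) S) (h1 : P * Q = 1)
    (h2 : Q * P = 1) : ¬ ∀ a b : S, a ≠ 0 → b ≠ 0 → ∃ x y : S, a * x = b * y ∧ a * x ≠ 0 := by
  intro h
  have hop : ∀ {m n : ℕ} (A : Matrix (Fin m) (Fin n) S) (B : Matrix (Fin n) (Fin m) S), A * B = 1 →
      (Matrix.of fun a b => op (B b a) : Matrix (Fin m) (Fin n) Sᵐᵒᵖ) *
        (Matrix.of fun a b => op (A b a) : Matrix (Fin n) (Fin m) Sᵐᵒᵖ) = 1 := by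
    intro m n A B hAB
    ext a b
    have h3 := congrFun (congrFun hAB b) a
    rw [Matrix.mul_apply] at h3
    rw [Matrix.mul_apply]
    simp only [Matrix.of_apply, ← op_mul]
    rw [← Finset.op_sum, h3, Matrix.one_apply, Matrix.one_apply]
    by_cases hab : a = b
    · rw [if_pos hab, if_pos hab.symm]; rfl
    · rw [if_neg hab, if_neg (fun h => hab h.symm)]; rfl
  refine not_leftOre (S := Sᵐᵒᵖ) hpq _ _ (hop P Q h1) (hop Q P h2) fun a b ha hb => ?_
  obtain ⟨x, y, hxy, hx⟩ := h (unop a) (unop b) (fun h => ha (unop_injective h))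
    (fun h => hb (unop_injective h))
  refine ⟨op x, op y, ?_, ?_⟩
  · rw [← op_unop a, ← op_unop b, ← op_mul, ← op_mul, hxy]
  · rw [← op_unop a, ← op_mul]
    exact fun h => hx (op_injective h)

end Pool.Agent.Y76.RDX
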