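import Pool.Agent.Y76.RDX.X
import Pool.Agent.H263R3.NORE_L

/-! Countable domains over countable fields: all certificates at once. -/

set_option autoImplicit false

namespace Pool.Agent.Y76.RDX

open Matrix

/-! ### certificates -/

theorem certL_map {R S : Type*} [Ring R] [Ring S] (φ : R →+* S) {l m n : ℕ}
    {A : Matrix (Fin m) (Fin n) R} (h : CertL l A) : CertL l (A.map φ) := by
  obtain ⟨r, U, X, s, z, w, h1, h2, h3⟩ := h
  have hd : (diagonal r).map φ = diagonal (fun i => φ (r i)) :=
    Matrix.diagonal_map (map_zero φ)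
  refine ⟨fun i => φ (r i), U.map φ, X.map φ, s.map φ, z.map φ, w.map φ, ?_, ?_, ?_⟩
  · rw [← Matrix.map_mul, ← Matrix.map_mul, ← Matrix.map_add φ (map_add φ), h1,
      Matrix.map_one φ (map_zero φ) (map_one φ)]
  · rw [← hd, ← Matrix.map_mul, ← Matrix.map_mul, h2]
  · rw [← hd, ← Matrix.map_mul, ← Matrix.map_mul, h3]

theorem certL_reflect {B S : Type*} [Ring B] [Ring S] (ι : B →+* S) (hι : Function.Injective ι)
    {m n l : ℕ} (A : Matrix (Fin m) (Fin n) B) (r : Fin l → B) (U : Matrix (Fin m) (Fin l) B)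
    (X : Matrix (Fin l) (Fin m) B) (s : Matrix (Fin n) (Fin m) B) (z : Matrix (Fin l) (Fin n) B)
    (w : Matrix (Fin n) (Fin l) B)
    (h1 : U.map ι * X.map ι + A.map ι * s.map ι = 1)
    (h2 : X.map ι * A.map ι = diagonal (fun i => ι (r i)) * z.map ι)
    (h3 : U.map ι * diagonal (fun i => ι (r i)) = A.map ι * w.map ι) : CertL l A := by
  have hd : (diagonal r).map ι = diagonal (fun i => ι (r i)) :=
    Matrix.diagonal_map (map_zero ι)
  refine ⟨r, U, X, s, z, w, ?_, ?_, ?_⟩
  · refine Matrix.map_injective hι ?_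
    show (U * X + A * s).map ι = (1 : Matrix (Fin m) (Fin m) B).map ι
    rw [Matrix.map_add ι (map_add ι), Matrix.map_mul, Matrix.map_mul, h1,
      Matrix.map_one ι (map_zero ι) (map_one ι)]
  · refine Matrix.map_injective hι ?_
    show (X * A).map ι = (diagonal r * z).map ι
    rw [Matrix.map_mul, Matrix.map_mul, hd, h2]
  · refine Matrix.map_injective hι ?_
    show (U * diagonal r).map ι = (A * w).map ι
    rw [Matrix.map_mul, Matrix.map_mul, hd, h3]

/-! ### countable domain algebras -/

/-- countable domain algebras -/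
structure Dom (k : Type) [Field k] where
  C : Type
  [ring : Ring C]
  [alg : Algebra k C]
  [dom : IsDomain C]
  [cnt : Countable C]

attribute [instance] Dom.ring Dom.alg Dom.dom Dom.cnt

/-- all matrices -/
abbrev Mat (R : Type) : Type := Σ m n : ℕ, Matrix (Fin m) (Fin n) R

/-- pushing forward -/
def push {R S : Type} (φ : R → S) (c : Mat R) : Mat S := ⟨c.1, c.2.1, c.2.2.map φ⟩

theorem step_exists {k : Type} [Field k] (hk : Countable k) (D : Dom k)
    (M : Mat D.C) : ∃ (D' : Dom k) (φ : D.C →ₐ[k] D'.C), Function.Injective φ ∧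
      CertL (M.1 + 3) (push φ M).2.2 := by
  obtain ⟨S, _, _, _, φ, hφ, r, U, X, s, z, w, h1, h2, h3⟩ := step k D.C M.1 M.2.1 M.2.2
  let T : Set S := Set.range φ ∪ (Set.range r ∪ (Set.range (fun p : _ × _ => U p.1 p.2) ∪
    (Set.range (fun p : _ × _ => X p.1 p.2) ∪ (Set.range (fun p : _ × _ => s p.1 p.2) ∪
    (Set.range (fun p : _ × _ => z p.1 p.2) ∪ Set.range (fun p : _ × _ => w p.1 p.2))))))
  have hT : T.Countable := by
    refine (Set.countable_range _).union ((Set.countable_range _).union
      ((Set.countable_range _).union ((Set.countable_range _).union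
      ((Set.countable_range _).union ((Set.countable_range _).union (Set.countable_range _))))))
  have hB : Countable (Algebra.adjoin k T) := by
    rw [← Cardinal.mk_le_aleph0_iff]
    refine (Algebra.cardinalMk_adjoin_le k T).trans ?_
    refine max_le (max_le ?_ ?_) le_rfl
    · exact Cardinal.mk_le_aleph0_iff.2 hk
    · exact Cardinal.mk_le_aleph0_iff.2 hT.to_subtype
  have hφT : ∀ x, φ x ∈ Algebra.adjoin k T := fun x => Algebra.subset_adjoin (Or.inl ⟨x, rfl⟩)
  have hr : ∀ i, r i ∈ Algebra.adjoin k T := fun i =>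
    Algebra.subset_adjoin (Or.inr (Or.inl ⟨i, rfl⟩))
  have hU : ∀ i j, U i j ∈ Algebra.adjoin k T := fun i j =>
    Algebra.subset_adjoin (Or.inr (Or.inr (Or.inl ⟨(i, j), rfl⟩)))
  have hXm : ∀ i j, X i j ∈ Algebra.adjoin k T := fun i j =>
    Algebra.subset_adjoin (Or.inr (Or.inr (Or.inr (Or.inl ⟨(i, j), rfl⟩))))
  have hs : ∀ i j, s i j ∈ Algebra.adjoin k T := fun i j =>
    Algebra.subset_adjoin (Or.inr (Or.inr (Or.inr (Or.inr (Or.inl ⟨(i, j), rfl⟩)))))
  have hz : ∀ i j, z i j ∈ Algebra.adjoin k T := fun i j =>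
    Algebra.subset_adjoin (Or.inr (Or.inr (Or.inr (Or.inr (Or.inr (Or.inl ⟨(i, j), rfl⟩))))))
  have hw : ∀ i j, w i j ∈ Algebra.adjoin k T := fun i j =>
    Algebra.subset_adjoin (Or.inr (Or.inr (Or.inr (Or.inr (Or.inr (Or.inr ⟨(i, j), rfl⟩))))))
  let φ' : D.C →ₐ[k] Algebra.adjoin k T := φ.codRestrict _ hφT
  have hφ' : Function.Injective φ' := by
    intro x y hxy
    exact hφ (congrArg Subtype.val hxy)
  refine ⟨{ C := Algebra.adjoin k T, cnt := hB }, φ', hφ', ?_⟩
  exact certL_reflect (Algebra.adjoin k T).val.toRingHom Subtype.val_injective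
    (M.2.2.map φ') (fun i => ⟨r i, hr i⟩) (Matrix.of fun i j => ⟨U i j, hU i j⟩)
    (Matrix.of fun i j => ⟨X i j, hXm i j⟩) (Matrix.of fun i j => ⟨s i j, hs i j⟩)
    (Matrix.of fun i j => ⟨z i j, hz i j⟩) (Matrix.of fun i j => ⟨w i j, hw i j⟩) h1 h2 h3

theorem enum_exists (R : Type) [Countable R] : ∃ f : ℕ → Mat R, Function.Surjective f := by
  haveI : Countable (Mat R) := by
    haveI : ∀ m n : ℕ, Countable (Matrix (Fin m) (Fin n) R) := fun m n => by
      unfold Matrix; infer_instance
    infer_instance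
  haveI : Nonempty (Mat R) := ⟨⟨0, 0, fun i => i.elim0⟩⟩
  exact exists_surjective_nat _

/-- an enumeration of the matrices -/
noncomputable def enum (R : Type) [Countable R] : ℕ → Mat R := (enum_exists R).choose

theorem enum_surj (R : Type) [Countable R] : Function.Surjective (enum R) :=
  (enum_exists R).choose_spec

/-- states of the construction -/
structure St (k : Type) [Field k] where
  D : Dom k
  e : ℕ → ℕ → Mat D.C

section chain

variable {k : Type} [Field k] (hk : Countable k)

/-- the matrix treated at step `i` -/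
def cur (i : ℕ) (s : St k) : Mat s.D.C := s.e (Nat.unpair i).1 (Nat.unpair i).2

/-- the next algebra -/
noncomputable def nextD (i : ℕ) (s : St k) : Dom k := (step_exists hk s.D (cur i s)).choose

/-- the map to the next algebra -/
noncomputable def nextφ (i : ℕ) (s : St k) : s.D.C →ₐ[k] (nextD hk i s).C :=
  (step_exists hk s.D (cur i s)).choose_spec.choose

theorem nextφ_inj (i : ℕ) (s : St k) : Function.Injective (nextφ hk i s) :=
  (step_exists hk s.D (cur i s)).choose_spec.choose_spec.1

theorem nextφ_cert (i : ℕ) (s : St k) :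
    CertL ((cur i s).1 + 3) (push (nextφ hk i s) (cur i s)).2.2 :=
  (step_exists hk s.D (cur i s)).choose_spec.choose_spec.2

/-- the next state -/
noncomputable def next (i : ℕ) (s : St k) : St k where
  D := nextD hk i s
  e := fun j l => if j ≤ i then push (nextφ hk i s) (s.e j l) else enum (nextD hk i s).C l

/-- the chain -/
noncomputable def st (D0 : Dom k) : ℕ → St k
  | 0 => ⟨D0, fun _ l => enum D0.C l⟩
  | i + 1 => next hk i (st D0 i)

/-- the maps of the chain -/
noncomputable def phi (D0 : Dom k) (i : ℕ) : (st hk D0 i).D.C →+* (st hk D0 (i + 1)).D.C :=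
  (nextφ hk i (st hk D0 i)).toRingHom

theorem phi_inj (D0 : Dom k) (i : ℕ) : Function.Injective (phi hk D0 i) :=
  nextφ_inj hk i _

theorem phi_cert (D0 : Dom k) (i : ℕ) :
    CertL ((cur i (st hk D0 i)).1 + 3) (push (phi hk D0 i) (cur i (st hk D0 i))).2.2 :=
  nextφ_cert hk i _

theorem st_self (D0 : Dom k) (i l : ℕ) :
    (st hk D0 i).e i l = enum (st hk D0 i).D.C l := by
  cases i with
  | zero => rfl
  | succ i =>
    show (if i + 1 ≤ i then _ else _) = _
    rw [if_neg (by omega)]
    rfl

theorem st_push (D0 : Dom k) (i j l : ℕ) (h : j ≤ i) :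
    (st hk D0 (i + 1)).e j l = push (phi hk D0 i) ((st hk D0 i).e j l) := by
  show (if j ≤ i then _ else _) = _
  rw [if_pos h]
  rfl

end chain


theorem chain (k : Type) [Field k] (hk : Countable k) (R : Type) [Ring R] [Algebra k R]
    [IsDomain R] (hR : Countable R) :
    ∃ (S : Type) (_ : Ring S) (_ : IsDomain S) (φ : R →+* S), Function.Injective φ ∧
      (∀ (c : k) (y : S), φ (algebraMap k R c) * y = y * φ (algebraMap k R c)) ∧
      ∀ (m n : ℕ) (A : Matrix (Fin m) (Fin n) S), CertL (m + 3) A := by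
  let D0 : Dom k := { C := R }
  let G : ℕ → Type := fun i => (st hk D0 i).D.C
  obtain ⟨L, _, _, of, hinj, hcompat, hex⟩ :=
    H263NORE.limit_exists (fun i => (st hk D0 i).D.C) (phi hk D0) (phi_inj hk D0)
  have hcen : ∀ (i : ℕ) (c : k), of i (algebraMap k (st hk D0 i).D.C c) =
      of 0 (algebraMap k R c) := by
    intro i c
    induction i with
    | zero => rfl
    | succ i ih =>
      have h : phi hk D0 i (algebraMap k (st hk D0 i).D.C c) =
          algebraMap k (st hk D0 (i + 1)).D.C c :=
        (nextφ hk i (st hk D0 i)).commutes c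
      rw [← ih, ← h, hcompat]
  refine ⟨L, inferInstance, inferInstance, of 0, hinj 0, fun c y => ?_, fun m n A => ?_⟩
  · obtain ⟨i, x, rfl⟩ := hex y
    have h1 : of 0 (algebraMap k R c) = of i (algebraMap k (st hk D0 i).D.C c) := (hcen i c).symm
    show of 0 (algebraMap k R c) * _ = _ * of 0 (algebraMap k R c)
    rw [h1, ← map_mul, ← map_mul, Algebra.commutes]
  -- elements come from all late stages
  have hup : ∀ (i j : ℕ), i ≤ j → ∀ x : (st hk D0 i).D.C,
      ∃ y : (st hk D0 j).D.C, of i x = of j y := by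
    intro i j hij
    induction j, hij using Nat.le_induction with
    | base => exact fun x => ⟨x, rfl⟩
    | succ j hij ih =>
      intro x
      obtain ⟨y, hy⟩ := ih x
      exact ⟨phi hk D0 j y, by rw [hy, hcompat]⟩
  -- matrices come from a stage
  have hmat : ∃ (i : ℕ) (B : Matrix (Fin m) (Fin n) (st hk D0 i).D.C), B.map (of i) = A := by
    choose i x hx using fun (p : Fin m × Fin n) => hex (A p.1 p.2)
    let N := Finset.univ.sup i
    have hN : ∀ p, i p ≤ N := fun p => Finset.le_sup (Finset.mem_univ p)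
    choose y hy using fun p : Fin m × Fin n => hup (i p) N (hN p) (x p)
    refine ⟨N, Matrix.of fun a b => y (a, b), ?_⟩
    ext a b
    rw [Matrix.map_apply, Matrix.of_apply, ← hy (a, b), ← hx (a, b)]
  obtain ⟨i, B, hB⟩ := hmat
  obtain ⟨l, hl⟩ := enum_surj (st hk D0 i).D.C ⟨m, n, B⟩
  -- the enumeration of stage `i` is transported
  have htrans : ∀ t, i ≤ t → push (of t) ((st hk D0 t).e i l) = ⟨m, n, A⟩ := by
    intro t ht
    induction t, ht using Nat.le_induction with
    | base =>
      rw [st_self, hl]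
      unfold push
      rw [hB]
    | succ t ht ih =>
      rw [st_push hk D0 t i l ht, ← ih]
      unfold push
      simp only [Matrix.map_map]
      congr 3
      funext x
      exact hcompat t x
  have ht : i ≤ Nat.pair i l := Nat.left_le_pair i l
  have hc := phi_cert hk D0 (Nat.pair i l)
  have hcur : cur (Nat.pair i l) (st hk D0 (Nat.pair i l)) =
      (st hk D0 (Nat.pair i l)).e i l := by
    unfold cur
    rw [Nat.unpair_pair]
  have h1 : CertL ((cur (Nat.pair i l) (st hk D0 (Nat.pair i l))).1 + 3) (push (of (Nat.pair i l + 1)) (push (phi hk D0 (Nat.pair i l))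
      (cur (Nat.pair i l) (st hk D0 (Nat.pair i l))))).2.2 :=
    certL_map (of (Nat.pair i l + 1)) hc
  have h2 : push (of (Nat.pair i l + 1)) (push (phi hk D0 (Nat.pair i l))
      (cur (Nat.pair i l) (st hk D0 (Nat.pair i l)))) = ⟨m, n, A⟩ := by
    rw [hcur, ← st_push hk D0 _ i l ht]
    exact htrans _ (by omega)
  have h3 : ∀ M M' : Mat L, M = M' → CertL (M.1 + 3) M.2.2 → CertL (M'.1 + 3) M'.2.2 := by
    rintro M _ rfl h
    exact h
  exact h3 _ _ h2 h1

end Pool.Agent.Y76.RDX
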