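import Pool.Agent.Y76.RDX.Base

/-! Ultraproducts: rings of arbitrary size. -/

set_option autoImplicit false

namespace Pool.Agent.Y76.RDX

open Matrix H354P

universe u v

/-- countable rings in any universe -/
theorem countable_case' (k : Type u) [Field k] (hk : Countable k) (R : Type v) [Ring R]
    [IsDomain R] (hR : Countable R) (i : k →+* R) (hi : ∀ c x, i c * x = x * i c) :
    ∃ (S : Type) (_ : Ring S) (_ : IsDomain S) (φ : R →+* S)
      (P : Matrix (Fin 3) (Fin 2) S) (Q : Matrix (Fin 2) (Fin 3) S), Function.Injective φ ∧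
      (∀ (c : k) (y : S), φ (i c) * y = y * φ (i c)) ∧ P * Q = 1 ∧ Q * P = 1 ∧
      ∀ (m n : ℕ) (A : Matrix (Fin m) (Fin n) S), CertL (m + 3) A := by
  have : Small.{0} k := Countable.toSmall k
  have : Small.{0} R := Countable.toSmall R
  let ek : Shrink.{0} k ≃+* k := Shrink.ringEquiv.{0} k
  let eR : Shrink.{0} R ≃+* R := Shrink.ringEquiv.{0} R
  obtain ⟨S, _, _, φ, P, Q, hφ, hc, h1, h2, hA⟩ := countable_case (Shrink.{0} k)
    (ek.injective.countable) (Shrink.{0} R) (eR.injective.countable)
    ((eR.symm.toRingHom.comp i).comp ek.toRingHom) (by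
      intro c x
      obtain ⟨y, rfl⟩ := eR.symm.surjective x
      show eR.symm (i (ek c)) * eR.symm y = eR.symm y * eR.symm (i (ek c))
      rw [← map_mul, ← map_mul, hi])
  refine ⟨S, inferInstance, inferInstance, φ.comp eR.symm.toRingHom, P, Q,
    hφ.comp eR.symm.injective, fun c y => ?_, h1, h2, hA⟩
  have h3 := hc (ek.symm c) y
  have h4 : ((eR.symm.toRingHom.comp i).comp ek.toRingHom) (ek.symm c) = eR.symm (i c) := by
    show eR.symm (i (ek (ek.symm c))) = _
    rw [ek.apply_symm_apply]
  rw [h4] at h3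
  exact h3

section ult
variable {I : Type u} (U : Ultrafilter I) (S : I → Type) [∀ i, Ring (S i)]

/-- the congruence of the ultraproduct -/
def con : RingCon (∀ i, S i) where
  r x y := ∀ᶠ i in (U : Filter I), x i = y i
  iseqv := ⟨fun _ => Filter.Eventually.of_forall fun _ => rfl, fun h => h.mono fun _ h => h.symm,
    fun h h' => (h.and h').mono fun _ h => h.1.trans h.2⟩
  add' h h' := (h.and h').mono fun _ h => by rw [Pi.add_apply, Pi.add_apply, h.1, h.2]
  mul' h h' := (h.and h').mono fun _ h => by rw [Pi.mul_apply, Pi.mul_apply, h.1, h.2]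

/-- the ultraproduct -/
abbrev Ult : Type u := (con U S).Quotient

/-- the projection -/
def prj : (∀ i, S i) →+* Ult U S := (con U S).mk'

theorem prj_surj : Function.Surjective (prj U S) := fun x => Quotient.exists_rep x

theorem prj_eq {x y : ∀ i, S i} : prj U S x = prj U S y ↔ ∀ᶠ i in (U : Filter I), x i = y i :=
  (con U S).eq

theorem ult_domain [∀ i, IsDomain (S i)] : IsDomain (Ult U S) := by
  have : Nontrivial (Ult U S) := by
    refine ⟨0, 1, fun h => ?_⟩
    rw [← map_zero (prj U S), ← map_one (prj U S), prj_eq] at h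
    obtain ⟨i, hi⟩ := h.exists
    exact zero_ne_one hi
  have : NoZeroDivisors (Ult U S) := by
    refine ⟨fun {a b} hab => ?_⟩
    obtain ⟨x, rfl⟩ := prj_surj U S a
    obtain ⟨y, rfl⟩ := prj_surj U S b
    rw [← map_mul, ← map_zero (prj U S), prj_eq] at hab
    have h : ∀ᶠ i in (U : Filter I), x i = 0 ∨ y i = 0 := hab.mono fun i h => mul_eq_zero.1 h
    rcases Ultrafilter.eventually_or.1 h with h | h
    · left
      rw [← map_zero (prj U S), prj_eq]
      exact h
    · right
      rw [← map_zero (prj U S), prj_eq]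
      exact h
  exact NoZeroDivisors.to_isDomain _

theorem ult_cert (h : ∀ i (m n : ℕ) (A : Matrix (Fin m) (Fin n) (S i)), CertL (m + 3) A)
    (m n : ℕ) (A : Matrix (Fin m) (Fin n) (Ult U S)) : CertL (m + 3) A := by
  choose A' hA' using fun a b => prj_surj U S (A a b)
  have h1 : (Matrix.of A' : Matrix (Fin m) (Fin n) (∀ i, S i)).map (prj U S) = A := by
    ext a b
    exact hA' a b
  rw [← h1]
  apply certL_map
  choose r U X s z w h1 h2 h3 using fun i => h i m n (Matrix.of fun a b => A' a b i)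
  refine ⟨fun l i => r i l, Matrix.of fun a b i => U i a b, Matrix.of fun a b i => X i a b,
    Matrix.of fun a b i => s i a b, Matrix.of fun a b i => z i a b,
    Matrix.of fun a b i => w i a b, ?_, ?_, ?_⟩
  · ext a b i
    have h := congrFun (congrFun (h1 i) a) b
    rw [Matrix.add_apply, Matrix.mul_apply, Matrix.mul_apply] at h
    rw [Matrix.add_apply, Matrix.mul_apply, Matrix.mul_apply, Pi.add_apply, Finset.sum_apply,
      Finset.sum_apply]
    refine h.trans ?_
    rw [Matrix.one_apply, Matrix.one_apply]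
    split_ifs <;> rfl
  · ext a b i
    have h := congrFun (congrFun (h2 i) a) b
    rw [Matrix.mul_apply, Matrix.diagonal_mul] at h
    rw [Matrix.mul_apply, Matrix.diagonal_mul, Finset.sum_apply]
    exact h
  · ext a b i
    have h := congrFun (congrFun (h3 i) a) b
    rw [Matrix.mul_diagonal, Matrix.mul_apply] at h
    rw [Matrix.mul_diagonal, Matrix.mul_apply, Finset.sum_apply]
    exact h

theorem ult_pq {p q : ℕ} (P : ∀ i, Matrix (Fin p) (Fin q) (S i))
    (Q : ∀ i, Matrix (Fin q) (Fin p) (S i)) (h : ∀ i, P i * Q i = 1) :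
    (Matrix.of fun a b => prj U S fun i => P i a b) *
      (Matrix.of fun a b => prj U S fun i => Q i a b) = 1 := by
  have h1 : (Matrix.of fun a b i => P i a b : Matrix (Fin p) (Fin q) (∀ i, S i)) *
      (Matrix.of fun a b i => Q i a b) = 1 := by
    ext a b i
    have h2 := congrFun (congrFun (h i) a) b
    rw [Matrix.mul_apply] at h2
    rw [Matrix.mul_apply, Finset.sum_apply]
    refine h2.trans ?_
    rw [Matrix.one_apply, Matrix.one_apply]
    split_ifs <;> rfl
  have h3 : (Matrix.of fun a b => prj U S fun i => P i a b) =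
      (Matrix.of fun a b i => P i a b : Matrix (Fin p) (Fin q) (∀ i, S i)).map (prj U S) := rfl
  have h4 : (Matrix.of fun a b => prj U S fun i => Q i a b) =
      (Matrix.of fun a b i => Q i a b : Matrix (Fin q) (Fin p) (∀ i, S i)).map (prj U S) := rfl
  rw [h3, h4, ← Matrix.map_mul, h1, Matrix.map_one _ (map_zero _) (map_one _)]

end ult

/-- the theorem over fields -/
theorem field_case (k : Type u) [Field k] (R : Type u) [Ring R] [IsDomain R]
    (i : k →+* R) (hi : ∀ c x, i c * x = x * i c) :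
    ∃ (S : Type u) (_ : Ring S) (_ : IsDomain S) (φ : R →+* S)
      (P : Matrix (Fin 3) (Fin 2) S) (Q : Matrix (Fin 2) (Fin 3) S), Function.Injective φ ∧
      (∀ (c : k) (y : S), φ (i c) * y = y * φ (i c)) ∧ P * Q = 1 ∧ Q * P = 1 ∧
      ∀ (m n : ℕ) (A : Matrix (Fin m) (Fin n) S), CertL (m + 3) A := by
  classical
  let kF : Finset R → Subfield k := fun F => Subfield.closure {c | i c ∈ F}
  have hkF : ∀ F, Countable (kF F) := by
    intro F
    rw [← Cardinal.mk_le_aleph0_iff]
    refine (Subfield.cardinalMk_closure_le_max _).trans (max_le ?_ le_rfl)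
    have h1 : {c | i c ∈ F}.Finite := F.finite_toSet.preimage i.injective.injOn
    exact Cardinal.mk_le_aleph0_iff.2 h1.countable.to_subtype
  let RF : Finset R → Subalgebra ℤ R := fun F => Algebra.adjoin ℤ (↑F ∪ i '' (kF F : Set k))
  have hRF : ∀ F, Countable (RF F) := by
    intro F
    have h1 : (↑F ∪ i '' (kF F : Set k) : Set R).Countable := by
      refine F.countable_toSet.union (Set.Countable.image ?_ _)
      exact Set.countable_coe_iff.1 (hkF F)
    have h2 := Algebra.lift_cardinalMk_adjoin_le ℤ (↑F ∪ i '' (kF F : Set k) : Set R)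
    rw [← Cardinal.mk_le_aleph0_iff]
    have h3 : Cardinal.lift.{0} (Cardinal.mk (RF F)) ≤ Cardinal.aleph0 := by
      refine h2.trans (max_le (max_le ?_ ?_) le_rfl)
      · simp
      · rw [Cardinal.lift_le_aleph0]
        exact Cardinal.mk_le_aleph0_iff.2 h1.to_subtype
    rwa [Cardinal.lift_le_aleph0] at h3
  have hiF : ∀ F (c : kF F), i c ∈ RF F := fun F c =>
    Algebra.subset_adjoin (Or.inr ⟨c, c.2, rfl⟩)
  have hFR : ∀ F, ∀ x ∈ F, x ∈ RF F := fun F x hx => Algebra.subset_adjoin (Or.inl hx)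
  let iF : ∀ F, kF F →+* RF F := fun F =>
    (i.comp (kF F).subtype).codRestrict (RF F) (hiF F)
  have hS := fun F => countable_case' (kF F) (hkF F) (RF F) (hRF F) (iF F) (by
    intro c x
    apply Subtype.ext
    exact hi c x)
  choose S iR iD φ P Q hφ hc h1 h2 hA using hS
  let U : Ultrafilter (Finset R) := Ultrafilter.of Filter.atTop
  have hU : ∀ F0 : Finset R, ∀ᶠ F in (U : Filter (Finset R)), F0 ⊆ F := fun F0 =>
    Ultrafilter.of_le Filter.atTop (Filter.eventually_ge_atTop F0)
  have hUm : ∀ x : R, ∀ᶠ F in (U : Filter (Finset R)), x ∈ RF F := fun x =>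
    (hU {x}).mono fun F hF => hFR F x (hF (Finset.mem_singleton_self x))
  let ψ : R → ∀ F, S F := fun x F => if h : x ∈ RF F then φ F ⟨x, h⟩ else 0
  have hψ : ∀ x F (h : x ∈ RF F), ψ x F = φ F ⟨x, h⟩ := fun x F h => dif_pos h
  refine ⟨Ult U S, inferInstance, ult_domain U S,
    { toFun := fun x => prj U S (ψ x)
      map_one' := ?_
      map_mul' := ?_
      map_zero' := ?_
      map_add' := ?_ }, _, _, ?_, ?_, ult_pq U S P Q h1, ult_pq U S Q P h2, ult_cert U S hA⟩
  · rw [← map_one (prj U S), prj_eq]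
    refine (hUm 1).mono fun F hF => ?_
    rw [hψ _ _ hF]
    exact map_one (φ F)
  · intro x y
    rw [← map_mul, prj_eq]
    refine ((hUm x).and (hUm y)).mono fun F hF => ?_
    rw [Pi.mul_apply, hψ _ _ hF.1, hψ _ _ hF.2, hψ _ _ (mul_mem hF.1 hF.2), ← map_mul]
    rfl
  · rw [← map_zero (prj U S), prj_eq]
    refine (hUm 0).mono fun F hF => ?_
    rw [hψ _ _ hF]
    exact map_zero (φ F)
  · intro x y
    rw [← map_add, prj_eq]
    refine ((hUm x).and (hUm y)).mono fun F hF => ?_
    rw [Pi.add_apply, hψ _ _ hF.1, hψ _ _ hF.2, hψ _ _ (add_mem hF.1 hF.2), ← map_add]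
    rfl
  · intro x y hxy
    have h3 : prj U S (ψ x) = prj U S (ψ y) := hxy
    rw [prj_eq] at h3
    obtain ⟨F, h4, h5, h6⟩ := (h3.and ((hUm x).and (hUm y))).exists
    rw [hψ _ _ h5, hψ _ _ h6] at h4
    exact congrArg Subtype.val (hφ F h4)
  · intro c y
    obtain ⟨y, rfl⟩ := prj_surj U S y
    show prj U S (ψ (i c)) * prj U S y = prj U S y * prj U S (ψ (i c))
    rw [← map_mul, ← map_mul, prj_eq]
    refine (hU {i c}).mono fun F hF => ?_
    have h3 : i c ∈ F := hF (Finset.mem_singleton_self _)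
    have h4 : c ∈ kF F := Subfield.subset_closure h3
    rw [Pi.mul_apply, Pi.mul_apply, hψ _ _ (hiF F ⟨c, h4⟩)]
    exact hc F ⟨c, h4⟩ (y F)

end Pool.Agent.Y76.RDX
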