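import Pool.Agent.H354.NORE.X
import Pool.Agent.H354.NORE.RDC
import Pool.Agent.H354.NORE.E1
import Pool.Agent.H30R3.NOREDual
import Pool.Agent.H397R3.NORE.E4
import Pool.Agent.H920R3.NORE.T0
import Pool.Agent.H975.NORE.T1

/-! Certificates of bounded size. -/

set_option autoImplicit false

namespace Pool.Agent.Y76.RDX

open Matrix H354P

/-- certificate of size `l` -/
def CertL {R : Type*} [Ring R] (l : ℕ) {m n : ℕ} (A : Matrix (Fin m) (Fin n) R) : Prop :=
  ∃ (r : Fin l → R) (U : Matrix (Fin m) (Fin l) R) (X : Matrix (Fin l) (Fin m) R)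
    (s : Matrix (Fin n) (Fin m) R) (z : Matrix (Fin l) (Fin n) R) (w : Matrix (Fin n) (Fin l) R),
    U * X + A * s = 1 ∧ X * A = diagonal r * z ∧ U * diagonal r = A * w

section
variable {R : Type} [Ring R]

theorem certL_mk {m n : ℕ} (A : Matrix (Fin m) (Fin n) R) (e : Matrix (Fin m) (Fin m) R)
    (f : Matrix (Fin n) (Fin n) R) (s : Matrix (Fin n) (Fin m) R)
    (a : Matrix (Fin m) (Fin 1) R) (b : Matrix (Fin 1) (Fin m) R)
    (c : Matrix (Fin n) (Fin 1) R) (d : Matrix (Fin 1) (Fin n) R)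
    (heA : e * A = 0) (hAf : A * f = 0) (hab : a * b = 1 - e - A * s) (hba : b * a = 1)
    (hcd : c * d = 1 - f - s * A) (hdc : d * c = 1) : CertL (m + 1) A := by
  have habA : a * b * A = A - A * s * A := by
    rw [hab, Matrix.sub_mul, Matrix.sub_mul, Matrix.one_mul, heA, sub_zero]
  have hAcd : A * (c * d) = A - A * s * A := by
    rw [hcd, Matrix.mul_sub, Matrix.mul_sub, Matrix.mul_one, hAf, sub_zero, Matrix.mul_assoc]
  have hbA : b * A = b * A * c * d := by
    calc b * A = b * (a * b * A) := by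
          rw [← Matrix.mul_assoc, ← Matrix.mul_assoc, hba, Matrix.one_mul]
      _ = b * (A * (c * d)) := by rw [habA, hAcd]
      _ = b * A * c * d := by simp only [Matrix.mul_assoc]
  have hAc : a * (b * A * c) = A * c := by
    calc a * (b * A * c) = (a * b * A) * c := by simp only [Matrix.mul_assoc]
      _ = (A * (c * d)) * c := by rw [habA, hAcd]
      _ = A * (c * (d * c)) := by simp only [Matrix.mul_assoc]
      _ = A * c := by rw [hdc, Matrix.mul_one]
  let r : Fin (m + 1) → R := fun l => Fin.cases ((b * A * c) 0 0) (fun _ => 0) l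
  let U : Matrix (Fin m) (Fin (m + 1)) R := fun i l =>
    Fin.cases (a i 0) (fun j => (1 : Matrix (Fin m) (Fin m) R) i j) l
  let X : Matrix (Fin (m + 1)) (Fin m) R := fun l j =>
    Fin.cases (b 0 j) (fun i => e i j) l
  let z : Matrix (Fin (m + 1)) (Fin n) R := fun l j =>
    Fin.cases (d 0 j) (fun _ => 0) l
  let w : Matrix (Fin n) (Fin (m + 1)) R := fun j l =>
    Fin.cases (c j 0) (fun _ => 0) l
  refine ⟨r, U, X, s, z, w, ?_, ?_, ?_⟩
  · ext i j
    rw [Matrix.add_apply, Matrix.mul_apply, Fin.sum_univ_succ]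
    have h1 : a i 0 * b 0 j = (1 - e - A * s : Matrix (Fin m) (Fin m) R) i j := by
      rw [← hab, Matrix.mul_apply, Fin.sum_univ_one]
    have h2 : ∑ l : Fin m, (1 : Matrix (Fin m) (Fin m) R) i l * e l j = e i j := by
      rw [← Matrix.mul_apply, Matrix.one_mul]
    show a i 0 * b 0 j + ∑ l : Fin m, (1 : Matrix (Fin m) (Fin m) R) i l * e l j + (A * s) i j
      = (1 : Matrix (Fin m) (Fin m) R) i j
    rw [h1, h2, Matrix.sub_apply, Matrix.sub_apply]
    abel
  · ext l j
    rw [Matrix.diagonal_mul, Matrix.mul_apply]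
    refine Fin.cases ?_ (fun i => ?_) l
    · show ∑ t : Fin m, b 0 t * A t j = (b * A * c) 0 0 * d 0 j
      have h1 := congrFun (congrFun hbA 0) j
      rw [Matrix.mul_apply, Matrix.mul_apply (M := b * A * c), Fin.sum_univ_one] at h1
      exact h1
    · show ∑ t : Fin m, e i t * A t j = 0 * 0
      have h1 := congrFun (congrFun heA i) j
      rw [Matrix.mul_apply] at h1
      rw [h1, mul_zero]
      rfl
  · ext i l
    rw [Matrix.mul_diagonal, Matrix.mul_apply]
    refine Fin.cases ?_ (fun j => ?_) l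
    · show a i 0 * (b * A * c) 0 0 = ∑ t : Fin n, A i t * c t 0
      have h1 := congrFun (congrFun hAc i) 0
      rw [Matrix.mul_apply, Matrix.mul_apply (M := A) (N := c), Fin.sum_univ_one] at h1
      exact h1
    · show (1 : Matrix (Fin m) (Fin m) R) i j * 0 = ∑ t : Fin n, A i t * 0
      simp only [mul_zero, Finset.sum_const_zero]

theorem certL_of_stab {l m n : ℕ} (A : Matrix (Fin m) (Fin n) R) (h : CertL l (stab A)) : CertL l A := by
  obtain ⟨r, U, X, s, z, w, h1, h2, h3⟩ := h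
  refine ⟨r, U.submatrix (Fin.castAdd 2) id, X.submatrix id (Fin.castAdd 2),
    s.submatrix (Fin.castAdd 2) (Fin.castAdd 2), z.submatrix id (Fin.castAdd 2),
    w.submatrix (Fin.castAdd 2) id, ?_, ?_, ?_⟩
  · ext i j
    have h4 := congrFun (congrFun h1 (Fin.castAdd 2 i)) (Fin.castAdd 2 j)
    rw [Matrix.add_apply, Matrix.mul_apply, Matrix.mul_apply, Fin.sum_univ_add] at h4
    simp only [stab_cc, stab_cn, zero_mul, Finset.sum_const_zero, add_zero] at h4
    rw [Matrix.add_apply, Matrix.mul_apply, Matrix.mul_apply]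
    simp only [Matrix.submatrix_apply, id_eq]
    rw [h4]
    simp only [Matrix.one_apply, Fin.castAdd_inj]
  · ext a j
    have h4 := congrFun (congrFun h2 a) (Fin.castAdd 2 j)
    rw [Matrix.mul_apply, Fin.sum_univ_add] at h4
    simp only [stab_cc, stab_nc, mul_zero, Finset.sum_const_zero, add_zero] at h4
    rw [Matrix.mul_apply, Matrix.diagonal_mul]
    rw [Matrix.diagonal_mul] at h4
    exact h4
  · ext i a
    have h4 := congrFun (congrFun h3 (Fin.castAdd 2 i)) a
    rw [Matrix.mul_apply (M := stab A) (N := w), Fin.sum_univ_add] at h4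
    simp only [stab_cc, stab_cn, zero_mul, Finset.sum_const_zero, add_zero] at h4
    rw [Matrix.mul_apply (M := A), Matrix.mul_diagonal]
    rw [Matrix.mul_diagonal] at h4
    exact h4


end

theorem theoremXU (k : Type) [Field k] (hE1 : TaskE1 k) (hE2 : TaskE2 k) (hE4 : TaskE4 k)
    (hT : TaskT k) (R : Type) [Ring R] [Algebra k R] [IsDomain R] (m n : ℕ)
    (A : Matrix (Fin m) (Fin n) R) :
    ∃ (S : Type) (_ : Ring S) (_ : Algebra k S) (_ : IsDomain S) (φ : R →ₐ[k] S),
      Function.Injective φ ∧ CertL (m + 3) (A.map φ) := by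
  obtain ⟨S1, _, _, _, φ1, e, hi1, heA, hleft, -⟩ := hE1 R (m + 2) (n + 2) (stab A)
  obtain ⟨S2, _, _, _, φ2, f, hi2, hAf, hright, hpres⟩ :=
    hE2 S1 (m + 2) (n + 2) ((stab A).map φ1)
  have hleft2 := hpres (m + 2) (n + 2) ((stab A).map φ1) e heA hleft
  have heA2 : e.map φ2 * ((stab A).map φ1).map φ2 = 0 := by
    rw [← Matrix.map_mul, heA, Matrix.map_zero _ (map_zero φ2)]
  have hne : ¬ ∃ (c : Fin (m + 2) → S2) (d : Fin (n + 2) → S2),
      ((stab A).map φ1).map φ2 = vecMulVec c d := by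
    rw [stab_map A φ1 (map_zero _) (map_one _), stab_map _ φ2 (map_zero _) (map_one _)]
    exact stab_ne _
  obtain ⟨S3, _, _, _, φ3, s, hi3, -, -, -, D1, D2⟩ :=
    hE4 S2 (m + 2) (n + 2) (((stab A).map φ1).map φ2) (e.map φ2) f heA2 hAf hleft2 hright hne
  obtain ⟨S4, _, _, _, φ4, a, b, c, d, hi4, hab, hba, hcd, hdc⟩ :=
    hT S3 (m + 2) (n + 2) _ _ D2 D1
  refine ⟨S4, inferInstance, inferInstance, inferInstance,
    φ4.comp (φ3.comp (φ2.comp φ1)), ?_, ?_⟩
  · exact hi4.comp (hi3.comp (hi2.comp hi1))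
  · apply certL_of_stab
    have hmap : stab (A.map (φ4.comp (φ3.comp (φ2.comp φ1)))) =
        ((((stab A).map φ1).map φ2).map φ3).map φ4 := by
      rw [← stab_map A _ (map_zero _) (map_one _)]
      rfl
    rw [hmap]
    refine certL_mk _ (((e.map φ2).map φ3).map φ4) ((f.map φ3).map φ4) (s.map φ4) a b c d
      ?_ ?_ ?_ hba ?_ hdc
    · rw [← Matrix.map_mul, ← Matrix.map_mul, heA2, Matrix.map_zero _ (map_zero φ3),
        Matrix.map_zero _ (map_zero φ4)]
    · rw [← Matrix.map_mul, ← Matrix.map_mul, hAf, Matrix.map_zero _ (map_zero φ3),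
        Matrix.map_zero _ (map_zero φ4)]
    · rw [hab, Matrix.map_sub _ (map_sub φ4), Matrix.map_sub _ (map_sub φ4), Matrix.map_mul,
        Matrix.map_one _ (map_zero φ4) (map_one φ4)]
    · rw [hcd, Matrix.map_sub _ (map_sub φ4), Matrix.map_sub _ (map_sub φ4), Matrix.map_mul,
        Matrix.map_one _ (map_zero φ4) (map_one φ4)]


/-- every matrix gets a certificate of size `m + 3` in an extension -/
theorem step (k : Type) [Field k] (R : Type) [Ring R] [Algebra k R] [IsDomain R] (m n : ℕ)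
    (A : Matrix (Fin m) (Fin n) R) :
    ∃ (S : Type) (_ : Ring S) (_ : Algebra k S) (_ : IsDomain S) (φ : R →ₐ[k] S),
      Function.Injective φ ∧ CertL (m + 3) (A.map φ) :=
  theoremXU k (Pool.Agent.H623R3.NORE.taskE1 k)
    (H354P.taskDual k (Pool.Agent.H623R3.NORE.taskE1 k)) (H354P.taskE4_397 k)
    (Pool.Agent.H975.NORE.taskT1 k (H920NORE.taskT0 k)) R m n A

end Pool.Agent.Y76.RDX
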